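import Pool.Agent.helper64.QF.Spec

/-! Module pq:LIN (project pq:): the linear flows. -/

set_option autoImplicit false

namespace Pool.Agent.helper64.QF

open Metric MeasureTheory Set Filter Topology
open Pool.Agent.helper37.PR

theorem LIN_exp_add {n : ℕ} (A : E n →L[ℂ] E n) (a b : ℂ) :
    NormedSpace.exp ((a + b) • A) = NormedSpace.exp (a • A) * NormedSpace.exp (b • A) := by
  have e : (a + b) • A = a • A + b • A := add_smul a b A
  rw [e]
  let _ : NormedAlgebra ℚ (E n →L[ℂ] E n) := NormedAlgebra.restrictScalars ℚ ℂ (E n →L[ℂ] E n)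
  exact NormedSpace.exp_add_of_commute (((Commute.refl A).smul_left a).smul_right b)

theorem LIN_fw_deriv {n : ℕ} (A : E n →L[ℂ] E n) (U : E n) (t : ℝ) :
    HasDerivAt (fw A U) (-(A (fw A U t))) t := by
  have h1 := hasDerivAt_exp_smul_const' (𝕂 := ℂ) A (-((t : ℝ) : ℂ))
  have h2 : HasDerivAt (fun s : ℝ => -((s : ℝ) : ℂ)) (-1) t := (Complex.ofRealCLM.hasDerivAt).neg
  have h3 := h1.scomp t h2
  have h4 := ((ContinuousLinearMap.apply ℂ (E n) U).restrictScalars ℝ).hasFDerivAt.comp_hasDerivAt t h3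
  have h5 : ((ContinuousLinearMap.apply ℂ (E n) U).restrictScalars ℝ)
      ((-1 : ℂ) • (A * NormedSpace.exp (-((t : ℝ) : ℂ) • A))) = -(A (fw A U t)) := by
    simp [fw]
  rw [h5] at h4
  exact h4

theorem LIN_dual_eq {n : ℕ} (A : E n →L[ℂ] E n) (V : E n) (t : ℝ) :
    dual A V t = ContinuousLinearMap.adjoint (NormedSpace.exp ((t : ℂ) • A)) V := by
  have h1 : NormedSpace.exp ((t : ℂ) • (ContinuousLinearMap.adjoint A)) =
      ContinuousLinearMap.adjoint (NormedSpace.exp ((t : ℂ) • A)) := by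
    rw [← ContinuousLinearMap.star_eq_adjoint, ← ContinuousLinearMap.star_eq_adjoint,
      NormedSpace.star_exp, star_smul]
    congr 2
    simp
  rw [dual, h1]

theorem LIN_exp_fw {n : ℕ} (A : E n →L[ℂ] E n) (U : E n) (t : ℝ) :
    NormedSpace.exp ((t : ℂ) • A) (fw A U t) = U := by
  have h := LIN_exp_add A (t : ℂ) (-(t : ℂ))
  have e : ((0 : ℂ) • A) = 0 := zero_smul ℂ A
  rw [add_neg_cancel, e, NormedSpace.exp_zero] at h
  have h2 := congrArg (fun B : E n →L[ℂ] E n => B U) h
  simp only [mul_apply_eq_comp, one_apply_eq_self] at h2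
  exact h2.symm

theorem LIN : LIN_stmt := by
  intro n A m κ C hC U V
  have hder : ∀ t : ℝ, HasDerivAt (fw A U) (-(A (fw A U t))) t := LIN_fw_deriv A U
  have h0 : fw A U 0 = U := by
    have h := LIN_exp_fw A U 0
    have e : (((0 : ℝ) : ℂ) • A) = 0 := by
      rw [Complex.ofReal_zero]
      exact zero_smul ℂ A
    rw [e, NormedSpace.exp_zero] at h
    exact h
  have hpair : ∀ t : ℝ, (inner ℂ (dual A V t) (fw A U t) : ℂ) = inner ℂ V U := by
    intro t
    rw [dual_inner, LIN_exp_fw]
  refine ⟨h0, hder, ?_, ?_, hpair, LIN_exp_fw A U, ?_, ?_, ?_, ?_, ?_, fun t => rfl⟩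
  · intro t ht
    have hd : ∀ s : ℝ, HasDerivAt (fun s : ℝ => Real.exp (2 * m * s) * ‖fw A U s‖ ^ 2)
        ((Real.exp (2 * m * s) * (2 * m)) * ‖fw A U s‖ ^ 2 +
          Real.exp (2 * m * s) * (2 * (inner ℂ (fw A U s) (-(A (fw A U s)))).re)) s := by
      intro s
      have e1 : HasDerivAt (fun t : ℝ => Real.exp (2 * m * t)) (Real.exp (2 * m * s) * (2 * m)) s := by
        have := ((hasDerivAt_id s).const_mul (2 * m)).exp
        simpa using this
      exact e1.mul (hasDerivAt_normSq (hder s))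
    have hanti : Antitone (fun s : ℝ => Real.exp (2 * m * s) * ‖fw A U s‖ ^ 2) := by
      apply antitone_of_deriv_nonpos (fun s => (hd s).differentiableAt)
      intro s
      rw [(hd s).deriv, inner_neg_right, Complex.neg_re]
      have h1 := hC.low (fw A U s)
      unfold qA at h1
      have h2 := Real.exp_pos (2 * m * s)
      nlinarith
    have h1 := hanti ht
    simp only [mul_zero, Real.exp_zero, one_mul, h0] at h1
    have h2 : ‖fw A U t‖ ^ 2 ≤ (‖U‖ * Real.exp (-(m * t))) ^ 2 := by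
      rw [mul_pow, ← Real.exp_nat_mul]
      have h3 : Real.exp (((2 : ℕ) : ℝ) * -(m * t)) = (Real.exp (2 * m * t))⁻¹ := by
        rw [← Real.exp_neg]; congr 1; push_cast; ring
      rw [h3, ← div_eq_mul_inv, le_div_iff₀ (Real.exp_pos _)]
      linarith
    exact (pow_le_pow_iff_left₀ (norm_nonneg _) (by positivity) two_ne_zero).1 h2
  · intro t ht
    rw [LIN_dual_eq]
    have h1 := (ContinuousLinearMap.adjoint (NormedSpace.exp ((t : ℂ) • A))).le_opNorm V
    have h2 : ‖ContinuousLinearMap.adjoint (NormedSpace.exp ((t : ℂ) • A))‖ =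
        ‖NormedSpace.exp ((t : ℂ) • A)‖ :=
      LinearIsometryEquiv.norm_map ContinuousLinearMap.adjoint _
    rw [h2] at h1
    refine h1.trans ?_
    have h3 := mul_le_mul_of_nonneg_right (hC.grow t ht) (norm_nonneg V)
    linarith
  · intro s t
    have h := LIN_exp_add A (-(t : ℂ)) (-(s : ℂ))
    have h2 := congrArg (fun B : E n →L[ℂ] E n => B U) h
    simp only [mul_apply_eq_comp] at h2
    have h3 : (-(t : ℂ) + -(s : ℂ)) = -(((s + t : ℝ) : ℂ)) := by push_cast; ring
    rw [h3] at h2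
    exact h2.symm
  · exact continuous_iff_continuousAt.2 fun t => (hder t).continuousAt
  · exact continuous_iff_continuousAt.2 fun t => (dual_hasDerivAt A V t).continuousAt
  · intro hU t ht
    apply hU
    rw [← LIN_exp_fw A U t, ht, map_zero]
  · intro hV t ht
    apply hV
    have h1 : (inner ℂ (dual A V t) (fw A V t) : ℂ) = inner ℂ V V := by
      rw [dual_inner, LIN_exp_fw]
    rw [ht, inner_zero_left] at h1
    exact inner_self_eq_zero.1 h1.symm

end Pool.Agent.helper64.QF
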